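import Pool.Agent.T9h98.DC.Defs

/-!
# Project DC, piece DIST
-/

set_option autoImplicit false

namespace Pool.Agent.T9h8.DC

open Pool.Agent.T9h98.DC

theorem pt_sq_le {d : ℕ} (T U : X d) (k : Fin d) : (pt T k - pt U k) ^ 2 ≤ 4 := by
  rw [pt_apply, pt_apply]
  split_ifs <;> norm_num

theorem pt_sq_zero {d : ℕ} (T U : X d) (k : Fin d) (h : T k = U k) :
    (pt T k - pt U k) ^ 2 = 0 := by
  rw [pt_apply, pt_apply, h]
  simp

theorem pt_sq_four {d : ℕ} (T U : X d) (k : Fin d) (h : U k = T k + 1) :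
    (pt T k - pt U k) ^ 2 = 4 := by
  rw [pt_apply, pt_apply, h]
  rcases zmod2 (T k) with h1 | h1
  · rw [h1, if_pos rfl, if_neg (by decide)]
    norm_num
  · rw [h1, if_neg (by decide), if_pos (by decide)]
    norm_num

theorem dist_sum {d : ℕ} (x y : E d) : dist x y = Real.sqrt (∑ k, (x k - y k) ^ 2) := by
  rw [EuclideanSpace.dist_eq]
  congr 1
  refine Finset.sum_congr rfl fun k _ => ?_
  rw [Real.dist_eq, sq_abs]

theorem dist : S_DIST := by
  constructor
  · intro d N I x hx y hy
    obtain ⟨x', ⟨T, ⟨i, _, rfl⟩, rfl⟩, y', ⟨U, ⟨j, _, rfl⟩, rfl⟩, hd⟩ :=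
      convexHull_exists_dist_ge2 hx hy
    refine lt_of_le_of_lt hd ?_
    rw [dist_sum]
    have h1 : ∑ k, (pt (N + Pi.single i 1) k - pt (N + Pi.single j 1) k) ^ 2 ≤
        ∑ k, ((if k = i then (4 : ℝ) else 0) + (if k = j then (4 : ℝ) else 0)) := by
      refine Finset.sum_le_sum fun k _ => ?_
      by_cases hi : k = i
      · rw [if_pos hi]
        have h2 := pt_sq_le (N + Pi.single i 1) (N + Pi.single j 1) k
        have h3 : (0 : ℝ) ≤ if k = j then (4 : ℝ) else 0 := by split_ifs <;> norm_num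
        linarith
      · by_cases hj : k = j
        · rw [if_neg hi, if_pos hj, zero_add]
          exact pt_sq_le _ _ k
        · rw [if_neg hi, if_neg hj, pt_sq_zero _ _ k (by simp [hi, hj])]
          norm_num
    rw [Finset.sum_add_distrib] at h1
    simp only [Finset.sum_ite_eq', Finset.mem_univ, if_true] at h1
    have h4 : Real.sqrt (∑ k, (pt (N + Pi.single i 1) k - pt (N + Pi.single j 1) k) ^ 2) ≤
        Real.sqrt (4 + 4) := Real.sqrt_le_sqrt h1
    refine lt_of_le_of_lt h4 ?_
    rw [Real.sqrt_lt' (by norm_num)]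
    norm_num
  · intro d N Z hZ
    obtain ⟨T, hT⟩ : ∃ T, T ∈ fA N Z := by
      rcases zmod2 (par N) with h | h
      · exact ⟨N, h, fun i _ => rfl⟩
      · obtain ⟨z, hz⟩ : Z.Nonempty := Finset.card_pos.1 (by omega)
        refine ⟨N + Pi.single z 1, ?_, fun i hi => ?_⟩
        · rw [par_add, par_single, h]
          decide
        · have : i ≠ z := fun h => hi (h ▸ hz)
          simp [this]
    obtain ⟨S, hSZ, hS⟩ := Finset.exists_subset_card_eq hZ
    obtain ⟨U, hU⟩ : ∃ U : X d, U = fun k => T k + if k ∈ S then 1 else 0 := ⟨_, rfl⟩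
    have hUA : U ∈ fA N Z := by
      constructor
      · have h1 : par U = par T + ∑ k, (if k ∈ S then (1 : ZMod 2) else 0) := by
          rw [hU]
          unfold par
          rw [Finset.sum_add_distrib]
        rw [h1, hT.1, Finset.sum_ite_mem, Finset.univ_inter, Finset.sum_const, hS]
        decide
      · intro i hi
        rw [hU]
        dsimp only
        rw [if_neg (fun h => hi (hSZ h)), add_zero]
        exact hT.2 i hi
    refine ⟨pt T, subset_convexHull ℝ _ ⟨T, hT, rfl⟩, pt U, subset_convexHull ℝ _ ⟨U, hUA, rfl⟩, ?_⟩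
    rw [dist_sum]
    apply Real.le_sqrt_of_sq_le
    calc (4 : ℝ) ^ 2 = ∑ k ∈ S, (4 : ℝ) := by
          rw [Finset.sum_const, hS]
          norm_num
      _ = ∑ k ∈ S, (pt T k - pt U k) ^ 2 := by
          refine Finset.sum_congr rfl fun k hk => ?_
          rw [pt_sq_four T U k (by rw [hU]; simp [hk])]
      _ ≤ ∑ k, (pt T k - pt U k) ^ 2 :=
          Finset.sum_le_sum_of_subset_of_nonneg (Finset.subset_univ _) fun _ _ _ => sq_nonneg _

end Pool.Agent.T9h8.DC
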