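import Pool.Agent.T9h98.DC.Defs

/-!
# Project DC, piece INT
-/

set_option autoImplicit false

namespace Pool.Agent.T9h8.DC

open Pool.Agent.T9h98.DC

theorem par_zero {d : ℕ} : par (0 : X d) = 0 := by simp [par]

theorem pt_sub {d : ℕ} (i j : Fin d) (hij : i ≠ j) :
    pt (0 : X d) - pt (Pi.single i 1 + Pi.single j 1 : X d) =
      (2 : ℝ) • EuclideanSpace.single i (1 : ℝ) + (2 : ℝ) • EuclideanSpace.single j (1 : ℝ) := by
  ext k
  have h1 : (pt (0 : X d) - pt (Pi.single i 1 + Pi.single j 1 : X d)) k =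
      pt (0 : X d) k - pt (Pi.single i 1 + Pi.single j 1 : X d) k := rfl
  rw [h1, pt_apply, pt_apply, if_pos (show (0 : X d) k = 0 from rfl)]
  simp only [Pi.add_apply, PiLp.add_apply, PiLp.smul_apply, smul_eq_mul]
  by_cases hi : k = i
  · subst hi
    simp [hij]
    norm_num
  · by_cases hj : k = j
    · subst hj
      simp [hi]
      norm_num
    · simp [hi, hj]

theorem int : S_INT := by
  intro d hd
  rw [demi_eq]
  unfold hull
  rw [interior_convexHull_nonempty_iff_affineSpan_eq_top]
  have hne : (pt '' {T : X d | par T = 0}).Nonempty := ⟨pt 0, 0, par_zero, rfl⟩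
  rw [← AffineSubspace.direction_eq_top_iff_of_nonempty ((affineSpan_nonempty ℝ).2 hne),
    direction_affineSpan]
  -- the vectors `4 e_i`
  have hpair : ∀ i j : Fin d, i ≠ j →
      (2 : ℝ) • EuclideanSpace.single i (1 : ℝ) + (2 : ℝ) • EuclideanSpace.single j (1 : ℝ) ∈
        vectorSpan ℝ (pt '' {T : X d | par T = 0}) := by
    intro i j hij
    rw [← pt_sub i j hij, ← vsub_eq_sub]
    refine vsub_mem_vectorSpan ℝ ⟨0, par_zero, rfl⟩ ⟨_, ?_, rfl⟩
    change par _ = 0
    rw [par_add, par_single, par_single]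
    decide
  have hbasis : ∀ i : Fin d, EuclideanSpace.single i (1 : ℝ) ∈
      vectorSpan ℝ (pt '' {T : X d | par T = 0}) := by
    intro i
    obtain ⟨j, hj⟩ : ∃ j : Fin d, j ≠ i := by
      have : Nontrivial (Fin d) := Fin.nontrivial_iff_two_le.2 (by omega)
      exact exists_ne i
    obtain ⟨k, hk1, hk2⟩ : ∃ k : Fin d, k ≠ i ∧ k ≠ j := by
      have h1 : 2 < (Finset.univ : Finset (Fin d)).card := by
        rw [Finset.card_univ, Fintype.card_fin]
        omega
      by_contra hno
      push Not at hno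
      have h2 : (Finset.univ : Finset (Fin d)) ⊆ {i, j} := by
        intro k _
        by_cases hk : k = i
        · simp [hk]
        · simp [hno k hk]
      have h3 := (Finset.card_le_card h2).trans Finset.card_le_two
      omega
    have e1 := hpair i j hj.symm
    have e2 := hpair i k hk1.symm
    have e3 := hpair j k hk2.symm
    have e4 := Submodule.smul_mem _ (1 / 4 : ℝ) (Submodule.sub_mem _ (Submodule.add_mem _ e1 e2) e3)
    have e5 : (1 / 4 : ℝ) • ((2 : ℝ) • EuclideanSpace.single i (1 : ℝ) +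
        (2 : ℝ) • EuclideanSpace.single j (1 : ℝ) + ((2 : ℝ) • EuclideanSpace.single i (1 : ℝ) +
        (2 : ℝ) • EuclideanSpace.single k (1 : ℝ)) - ((2 : ℝ) • EuclideanSpace.single j (1 : ℝ) +
        (2 : ℝ) • EuclideanSpace.single k (1 : ℝ))) = EuclideanSpace.single i (1 : ℝ) := by
      module
    rwa [e5] at e4
  rw [eq_top_iff]
  intro x _
  have hx : x = ∑ i, x i • EuclideanSpace.single i (1 : ℝ) := by
    have h := (EuclideanSpace.basisFun (Fin d) ℝ).sum_repr x
    conv_lhs => rw [← h]
    refine Finset.sum_congr rfl fun i _ => ?_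
    simp
  rw [hx]
  exact Submodule.sum_mem _ fun i _ => Submodule.smul_mem _ _ (hbasis i)

end Pool.Agent.T9h8.DC
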