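import Pool.Agent.T9h98.DC.Defs

/-!
# Project DC, piece MONO
-/

set_option autoImplicit false

namespace Pool.Agent.T9h8.DC

open Pool.Agent.T9h98.DC

theorem one_ne : (1 : ZMod 2) ≠ 0 := by decide

theorem single_self {d : ℕ} (i : Fin d) : (Pi.single i (1 : ZMod 2) : X d) i = 1 := by simp

theorem single_ne {d : ℕ} {i j : Fin d} (h : j ≠ i) : (Pi.single i (1 : ZMod 2) : X d) j = 0 := by
  simp [h]

theorem add_one_ne (a : ZMod 2) : a + 1 ≠ a := by
  intro h
  have : (1 : ZMod 2) = 0 := by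
    have h2 : a + 1 = a + 0 := by rw [h, add_zero]
    exact add_left_cancel h2
  exact one_ne this

theorem fA_congr {d : ℕ} (N N' : X d) (Z : Finset (Fin d)) (h : ∀ i ∉ Z, N' i = N i) :
    fA N' Z = fA N Z := by
  ext T
  constructor
  · rintro ⟨h1, h2⟩
    exact ⟨h1, fun i hi => (h2 i hi).trans (h i hi)⟩
  · rintro ⟨h1, h2⟩
    exact ⟨h1, fun i hi => (h2 i hi).trans (h i hi).symm⟩

theorem fA_nonempty {d : ℕ} (N : X d) (Z : Finset (Fin d)) (hZ : Z.Nonempty) :
    ∃ T, T ∈ fA N Z := by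
  rcases zmod2 (par N) with h | h
  · exact ⟨N, h, fun i _ => rfl⟩
  · obtain ⟨z, hz⟩ := hZ
    refine ⟨N + Pi.single z 1, ?_, fun i hi => ?_⟩
    · rw [par_add, par_single, h]
      decide
    · have : i ≠ z := fun h => hi (h ▸ hz)
      rw [Pi.add_apply, single_ne this, add_zero]

theorem fA_move {d : ℕ} (N : X d) (Z : Finset (Fin d)) (T : X d) (hT : T ∈ fA N Z)
    {x y : Fin d} (hx : x ∈ Z) (hy : y ∈ Z) :
    T + Pi.single x 1 + Pi.single y 1 ∈ fA N Z := by
  refine ⟨?_, fun i hi => ?_⟩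
  · rw [par_add, par_add, par_single, par_single, hT.1]
    decide
  · have h1 : i ≠ x := fun h => hi (h ▸ hx)
    have h2 : i ≠ y := fun h => hi (h ▸ hy)
    rw [Pi.add_apply, Pi.add_apply, single_ne h1, single_ne h2, add_zero, add_zero]
    exact hT.2 i hi

theorem key {d : ℕ} (N' : X d) (i j x y : Fin d) (hxy : x ≠ y)
    (h : N' + Pi.single i 1 + Pi.single x 1 + Pi.single y 1 = N' + Pi.single j 1) :
    i = x ∨ i = y := by
  by_contra hne
  push Not at hne
  obtain ⟨h1, h2⟩ := hne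
  have e1 := congrFun h x
  have e2 := congrFun h y
  simp only [Pi.add_apply] at e1 e2
  rw [single_ne (Ne.symm h1), single_self, single_ne hxy, add_zero, add_zero] at e1
  rw [single_ne (Ne.symm h2), single_ne (Ne.symm hxy), single_self, add_zero, add_zero] at e2
  have hj1 : x = j := by
    by_contra hxj
    rw [single_ne hxj, add_zero] at e1
    exact add_one_ne _ e1
  have hj2 : y = j := by
    by_contra hyj
    rw [single_ne hyj, add_zero] at e2
    exact add_one_ne _ e2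
  exact hxy (hj1.trans hj2.symm)

theorem mono3 (d : ℕ) (N N' : X d) (Z I : Finset (Fin d)) (hZ : 3 ≤ Z.card) :
    ¬ fA N Z ⊆ fB N' I := by
  intro hsub
  obtain ⟨x, hx, y, hy, z, hz, hxy, hxz, hyz⟩ := Finset.two_lt_card.1 (by omega : 2 < Z.card)
  obtain ⟨T, hT⟩ := fA_nonempty N Z ⟨x, hx⟩
  obtain ⟨i, _, hi⟩ := hsub hT
  have hk : ∀ {u v : Fin d}, u ∈ Z → v ∈ Z → u ≠ v → i = u ∨ i = v := by
    intro u v hu hv huv
    obtain ⟨j, _, hj⟩ := hsub (fA_move N Z T hT hu hv)
    rw [hi] at hj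
    exact key N' i j u v huv hj
  rcases hk hx hy hxy with h1 | h1
  · rcases hk hy hz hyz with h2 | h2
    · exact hxy (h1.symm.trans h2)
    · exact hxz (h1.symm.trans h2)
  · rcases hk hx hz hxz with h2 | h2
    · exact hxy (h2.symm.trans h1)
    · exact hyz (h1.symm.trans h2)

theorem mono4 (d : ℕ) (N N' : X d) (Z Z' : Finset (Fin d)) (hZ : 3 ≤ Z.card)
    (hsub : fA N Z ⊆ fA N' Z') : Z ⊆ Z' ∧ fA N' Z' = fA N Z' := by
  obtain ⟨z₀, hz₀⟩ : Z.Nonempty := Finset.card_pos.1 (by omega)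
  obtain ⟨T, hT⟩ := fA_nonempty N Z ⟨z₀, hz₀⟩
  have h1 : Z ⊆ Z' := by
    intro z hz
    by_contra hz'
    obtain ⟨y, hy, hyz⟩ : ∃ y ∈ Z, y ≠ z := Finset.exists_mem_ne (by omega) z
    have e1 := (hsub hT).2 z hz'
    have e2 := (hsub (fA_move N Z T hT hz hy)).2 z hz'
    rw [Pi.add_apply, Pi.add_apply, single_self, single_ne (Ne.symm hyz), add_zero, e1] at e2
    exact add_one_ne _ e2
  refine ⟨h1, fA_congr N N' Z' fun i hi => ?_⟩
  rw [← (hsub hT).2 i hi]
  exact hT.2 i (fun h => hi (h1 h))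

theorem mono5 (d : ℕ) (N N' : X d) (I Z' : Finset (Fin d)) (hI : 2 ≤ I.card)
    (hsub : fB N I ⊆ fA N' Z') : I ⊆ Z' ∧ fA N' Z' = fA N Z' := by
  have hmem : ∀ i ∈ I, N + Pi.single i 1 ∈ fA N' Z' := fun i hi => hsub ⟨i, hi, rfl⟩
  have h1 : I ⊆ Z' := by
    intro i hi
    by_contra hi'
    obtain ⟨j, hj, hji⟩ : ∃ j ∈ I, j ≠ i := Finset.exists_mem_ne (by omega) i
    have e1 := (hmem i hi).2 i hi'
    have e2 := (hmem j hj).2 i hi'
    rw [Pi.add_apply, single_self] at e1
    rw [Pi.add_apply, single_ne (Ne.symm hji), add_zero] at e2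
    rw [← e2] at e1
    exact add_one_ne _ e1
  obtain ⟨i, hi⟩ : I.Nonempty := Finset.card_pos.1 (by omega)
  refine ⟨h1, fA_congr N N' Z' fun k hk => ?_⟩
  have hki : k ≠ i := fun h => hk (h ▸ h1 hi)
  rw [← (hmem i hi).2 k hk, Pi.add_apply, single_ne hki, add_zero]

theorem fB_ncard {d : ℕ} (N : X d) (I : Finset (Fin d)) : (fB N I).ncard = I.card := by
  have h : fB N I = (fun i => N + Pi.single i 1) '' (I : Set (Fin d)) := by
    ext T
    constructor
    · rintro ⟨i, hi, rfl⟩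
      exact ⟨i, hi, rfl⟩
    · rintro ⟨i, hi, rfl⟩
      exact ⟨i, hi, rfl⟩
  rw [h, Set.ncard_image_of_injective, Set.ncard_coe_finset]
  intro i j hij
  by_contra hne
  have h1 := congrFun (add_left_cancel hij) i
  rw [single_self, single_ne hne] at h1
  exact one_ne h1

theorem mono : S_MONO := by
  refine ⟨?_, ?_, mono3, mono4, fun d N N' I Z' _ => mono5 d N N' I Z'⟩
  · intro d M M' m m' h1 h2 hlt
    rcases h1 with ⟨hm, N, Z, hN, hZ, rfl⟩ | ⟨N, I, hN, hI, rfl⟩
    · rcases h2 with ⟨hm', N', Z', hN', hZ', rfl⟩ | ⟨N', I', hN', hI', rfl⟩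
      · obtain ⟨g1, g2⟩ := mono4 d N N' Z Z' (by omega) hlt.1
        have g3 : Z ≠ Z' := by
          intro h
          apply hlt.2
          rw [g2, h]
        have g4 := Finset.card_lt_card (Finset.ssubset_iff_subset_ne.2 ⟨g1, g3⟩)
        omega
      · exact absurd hlt.1 (mono3 d N N' Z I' (by omega))
    · rcases h2 with ⟨hm', N', Z', hN', hZ', rfl⟩ | ⟨N', I', hN', hI', rfl⟩
      · by_cases h2 : 2 ≤ I.card
        · obtain ⟨g1, _⟩ := mono5 d N N' I Z' h2 hlt.1
          have g2 := Finset.card_le_card g1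
          omega
        · omega
      · have g1 := Set.ncard_lt_ncard hlt (Set.toFinite _)
        rw [fB_ncard, fB_ncard] at g1
        omega
  · intro d M m h
    rcases h with ⟨hm, N, Z, hN, hZ, rfl⟩ | ⟨N, I, hN, hI, rfl⟩
    · have h1 := Finset.card_le_univ Z
      rw [Fintype.card_fin] at h1
      refine ⟨by omega, fun hd => ?_⟩
      have h2 : Z = Finset.univ := by
        apply Finset.eq_univ_of_card
        rw [Fintype.card_fin]
        omega
      rw [h2]
      ext T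
      constructor
      · exact fun h => h.1
      · exact fun h => ⟨h, fun i hi => absurd (Finset.mem_univ i) hi⟩
    · have h1 := Finset.card_le_univ I
      rw [Fintype.card_fin] at h1
      exact ⟨by omega, fun hd => by omega⟩

end Pool.Agent.T9h8.DC
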